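import Pool.Agent.N587.IC.Stm3

/-!
# Project IC, part SC: the isomorphism class of one countable structure is a Borel set

Scott's theorem, without ordinals: the class `K` of the measurable families of approximations to the
isomorphism relation is closed under the back-and-forth derivative and under countable intersections,
so that it has a member whose derivative is the same at the given structure.
-/

set_option autoImplicit false
set_option linter.all false

namespace Pool.Agent.N687.IC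

open Set MeasureTheory Pool.Agent.N587.IC

variable {P : Type}

/-- the states are correct for the atomic relations -/
def At (g : ℕ → P → ℂ) (C : Set ℕ) {ν : ℕ → ℕ} (R : (j : ℕ) → Set (Fin (ν j) → ℂ)) (p q : P)
    (s : List (ℕ × ℕ)) : Prop :=
  (∀ x y : ℕ × ℕ, x ∈ s → y ∈ s → (g x.1 p = g y.1 p ↔ g x.2 q = g y.2 q)) ∧
  (∀ (i : ℕ) (x : ℕ × ℕ), i ∈ C → x ∈ s → (g x.1 p = g i p ↔ g x.2 q = g i q)) ∧
  ∀ (l : ℕ) (u : Fin (ν l) → ℕ × ℕ), (∀ a, u a ∈ s) →
    ((fun a => g (u a).1 p) ∈ R l ↔ (fun a => g (u a).2 q) ∈ R l)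

/-- a code of an isomorphism -/
structure BF (g : ℕ → P → ℂ) (C : Set ℕ) {ν : ℕ → ℕ} (R : (j : ℕ) → Set (Fin (ν j) → ℂ)) (p q : P)
    (r : ℕ → ℕ → Prop) : Prop where
  forth : ∀ i, ∃ j, r i j
  back : ∀ j, ∃ i, r i j
  eq : ∀ i j i' j', r i j → r i' j' → (g i p = g i' p ↔ g j q = g j' q)
  named : ∀ i j, i ∈ C → r i j → g j q = g i q
  rel : ∀ (l : ℕ) (u w : Fin (ν l) → ℕ), (∀ a, r (u a) (w a)) →
    ((fun a => g (u a) p) ∈ R l ↔ (fun a => g (w a) q) ∈ R l)

theorem iso_iff (g : ℕ → P → ℂ) (C : Set ℕ) {ν : ℕ → ℕ} (R : (j : ℕ) → Set (Fin (ν j) → ℂ))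
    (p q : P) : (∃ σ : range (fun i => g i p) ≃ range (fun i => g i q), IsoAt g C R p q σ) ↔
    ∃ r, BF g C R p q r := by
  constructor
  · rintro ⟨σ, h1, h2⟩
    refine ⟨fun i j => (σ ⟨g i p, mem_range_self i⟩ : ℂ) = g j q, ?_, ?_, ?_, ?_, ?_⟩
    · intro i
      obtain ⟨j, hj⟩ := (σ ⟨g i p, mem_range_self i⟩).2
      exact ⟨j, hj.symm⟩
    · intro j
      obtain ⟨i, hi⟩ := (σ.symm ⟨g j q, mem_range_self j⟩).2
      refine ⟨i, ?_⟩
      have h3 : (⟨g i p, mem_range_self i⟩ : range (fun i => g i p)) =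
          σ.symm ⟨g j q, mem_range_self j⟩ := Subtype.ext hi
      show ((σ ⟨g i p, mem_range_self i⟩ : range (fun i => g i q)) : ℂ) = g j q
      rw [h3, Equiv.apply_symm_apply]
    · intro i j i' j' hij hij'
      rw [← hij, ← hij']
      constructor
      · intro h
        have h3 : (⟨g i p, mem_range_self i⟩ : range (fun i => g i p)) =
          ⟨g i' p, mem_range_self i'⟩ := Subtype.ext h
        rw [h3]
      · intro h
        have h3 := σ.injective (Subtype.ext h)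
        exact congrArg Subtype.val h3
    · intro i j hi hij
      rw [← hij]
      exact h1 i hi
    · intro l u w huw
      have h3 := h2 l (fun a => ⟨g (u a) p, mem_range_self (u a)⟩)
      have h4 : (fun a => (σ ⟨g (u a) p, mem_range_self (u a)⟩ : ℂ)) = fun a => g (w a) q := by
        funext a
        exact huw a
      rw [h4] at h3
      exact h3
  · rintro ⟨r, h1, h2, h3, h4, h5⟩
    have hidx : ∀ x : range (fun i => g i p), ∃ i j, g i p = x ∧ r i j := by
      rintro ⟨_, i, rfl⟩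
      obtain ⟨j, hj⟩ := h1 i
      exact ⟨i, j, rfl, hj⟩
    choose fi fj hfi hfr using hidx
    let τ : range (fun i => g i p) → range (fun i => g i q) := fun x =>
      ⟨g (fj x) q, mem_range_self (fj x)⟩
    have hτ : ∀ i j, r i j → ∀ hx : g i p ∈ range (fun i => g i p),
        (τ ⟨g i p, hx⟩ : ℂ) = g j q := by
      intro i j hij hx
      exact (h3 _ _ _ _ (hfr ⟨g i p, hx⟩) hij).1 (hfi ⟨g i p, hx⟩)
    have hτi : Function.Injective τ := by
      intro x y hxy
      have h6 : g (fj x) q = g (fj y) q := congrArg Subtype.val hxy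
      have h7 := (h3 _ _ _ _ (hfr x) (hfr y)).2 h6
      rw [hfi, hfi] at h7
      exact Subtype.ext h7
    have hτs : Function.Surjective τ := by
      rintro ⟨_, j, rfl⟩
      obtain ⟨i, hi⟩ := h2 j
      exact ⟨⟨g i p, mem_range_self i⟩, Subtype.ext (hτ i j hi _)⟩
    refine ⟨Equiv.ofBijective τ ⟨hτi, hτs⟩, ?_, ?_⟩
    · intro i hi
      obtain ⟨j, hj⟩ := h1 i
      exact (hτ i j hj _).trans (h4 i j hi hj)
    · intro l v
      have h6 := h5 l (fun a => fi (v a)) (fun a => fj (v a)) (fun a => hfr (v a))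
      have h7 : (fun a => g (fi (v a)) p) = fun a => (v a : ℂ) := by
        funext a
        exact hfi (v a)
      rw [h7] at h6
      exact h6

/-- corresponding states -/
def Corr (r : ℕ → ℕ → Prop) (s s' : List (ℕ × ℕ)) : Prop :=
  (∀ x ∈ s, ∃ y ∈ s', x.1 = y.1 ∧ r x.2 y.2) ∧ ∀ y ∈ s', ∃ x ∈ s, x.1 = y.1 ∧ r x.2 y.2

theorem Corr.cons {r : ℕ → ℕ → Prop} {s s' : List (ℕ × ℕ)} (h : Corr r s s') (c d d' : ℕ)
    (hd : r d d') : Corr r ((c, d) :: s) ((c, d') :: s') := by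
  constructor
  · intro x hx
    rcases List.mem_cons.1 hx with rfl | hx
    · exact ⟨(c, d'), List.mem_cons_self, rfl, hd⟩
    · obtain ⟨y, hy, h1⟩ := h.1 x hx
      exact ⟨y, List.mem_cons_of_mem _ hy, h1⟩
  · intro y hy
    rcases List.mem_cons.1 hy with rfl | hy
    · exact ⟨(c, d), List.mem_cons_self, rfl, hd⟩
    · obtain ⟨x, hx, h1⟩ := h.2 y hy
      exact ⟨x, List.mem_cons_of_mem _ hx, h1⟩

theorem exists_corr {r : ℕ → ℕ → Prop} (hr : ∀ j, ∃ i, r i j) (s' : List (ℕ × ℕ)) :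
    ∃ s, Corr r s s' := by
  choose f hf using hr
  refine ⟨s'.map (fun y => (y.1, f y.2)), ?_, ?_⟩
  · intro x hx
    obtain ⟨y, hy, rfl⟩ := List.mem_map.1 hx
    exact ⟨y, hy, rfl, hf _⟩
  · intro y hy
    exact ⟨(y.1, f y.2), List.mem_map.2 ⟨y, hy, rfl⟩, rfl, hf _⟩

theorem at_corr {g : ℕ → P → ℂ} {C : Set ℕ} {ν : ℕ → ℕ} {R : (j : ℕ) → Set (Fin (ν j) → ℂ)} {p q : P}
    {r : ℕ → ℕ → Prop} (h : BF g C R p q r) {s s' : List (ℕ × ℕ)} (hs : Corr r s s') :
    At g C R p p s ↔ At g C R p q s' := by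
  have hnm : ∀ i ∈ C, ∀ a b : ℕ, r a b → (g a p = g i p ↔ g b q = g i q) := by
    intro i hi a b hab
    obtain ⟨j, hj⟩ := h.forth i
    rw [h.eq a b i j hab hj, h.named i j hi hj]
  constructor
  · rintro ⟨h1, h2, h3⟩
    refine ⟨?_, ?_, ?_⟩
    · intro x' y' hx' hy'
      obtain ⟨x, hx, ex, rx⟩ := hs.2 x' hx'
      obtain ⟨y, hy, ey, ry⟩ := hs.2 y' hy'
      rw [← ex, ← ey, h1 x y hx hy]
      exact h.eq _ _ _ _ rx ry
    · intro i x' hi hx'
      obtain ⟨x, hx, ex, rx⟩ := hs.2 x' hx'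
      rw [← ex, h2 i x hi hx]
      exact hnm i hi _ _ rx
    · intro l u' hu'
      choose u hu eu ru using fun a => hs.2 (u' a) (hu' a)
      have h4 := h3 l u hu
      have h5 := h.rel l (fun a => (u a).2) (fun a => (u' a).2) ru
      have h6 : (fun a => g (u' a).1 p) = fun a => g (u a).1 p := by
        funext a
        rw [eu a]
      rw [h6, h4]
      exact h5
  · rintro ⟨h1, h2, h3⟩
    refine ⟨?_, ?_, ?_⟩
    · intro x y hx hy
      obtain ⟨x', hx', ex, rx⟩ := hs.1 x hx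
      obtain ⟨y', hy', ey, ry⟩ := hs.1 y hy
      rw [ex, ey, h1 x' y' hx' hy']
      exact (h.eq _ _ _ _ rx ry).symm
    · intro i x hi hx
      obtain ⟨x', hx', ex, rx⟩ := hs.1 x hx
      rw [ex, h2 i x' hi hx']
      exact (hnm i hi _ _ rx).symm
    · intro l u hu
      choose u' hu' eu ru using fun a => hs.1 (u a) (hu a)
      have h4 := h3 l u' hu'
      have h5 := h.rel l (fun a => (u a).2) (fun a => (u' a).2) ru
      have h6 : (fun a => g (u a).1 p) = fun a => g (u' a).1 p := by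
        funext a
        rw [eu a]
      rw [h6, h4]
      exact h5.symm

/-- the back-and-forth derivative -/
def Ga (Φ : List (ℕ × ℕ) → Set P) (s : List (ℕ × ℕ)) : Set P :=
  {q | q ∈ Φ s ∧ (∀ c, ∃ d, q ∈ Φ ((c, d) :: s)) ∧ ∀ d, ∃ c, q ∈ Φ ((c, d) :: s)}

/-- the approximations to the isomorphism relation -/
structure K [MeasurableSpace P] (g : ℕ → P → ℂ) (C : Set ℕ) {ν : ℕ → ℕ}
    (R : (j : ℕ) → Set (Fin (ν j) → ℂ)) (p : P) (Φ : List (ℕ × ℕ) → Set P) : Prop where
  meas : ∀ s, MeasurableSet (Φ s)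
  sub : ∀ s, ∀ q ∈ Φ s, At g C R p q s
  diag : ∀ s : List (ℕ × ℕ), (∀ x ∈ s, x.1 = x.2) → p ∈ Φ s
  inv : ∀ q r, BF g C R p q r → ∀ s s', Corr r s s' → (p ∈ Φ s ↔ q ∈ Φ s')

theorem K_At [MeasurableSpace P] (g : ℕ → P → ℂ) (hg : ∀ i, Measurable (g i)) (C : Set ℕ)
    {ν : ℕ → ℕ} (R : (j : ℕ) → Set (Fin (ν j) → ℂ)) (hR : ∀ j, MeasurableSet (R j)) (p : P) :
    K g C R p (fun s => {q | At g C R p q s}) where
  meas := by
    intro s
    apply measurableSet_setOfPred.2
    refine Measurable.and ?_ (Measurable.and ?_ ?_)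
    · refine Measurable.forall fun x => Measurable.forall fun y => Measurable.imp measurable_const
        (Measurable.imp measurable_const (Measurable.iff measurable_const ?_))
      exact measurableSet_setOfPred.1 (measurableSet_eq_fun (hg _) (hg _))
    · refine Measurable.forall fun x => Measurable.forall fun y => Measurable.imp measurable_const
        (Measurable.imp measurable_const (Measurable.iff measurable_const ?_))
      exact measurableSet_setOfPred.1 (measurableSet_eq_fun (hg _) (hg _))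
    · refine Measurable.forall fun l => Measurable.forall fun u => Measurable.imp measurable_const
        (Measurable.iff measurable_const ?_)
      have h1 : Measurable fun q : P => fun a => g (u a).2 q :=
        measurable_pi_lambda _ fun a => hg (u a).2
      exact measurableSet_setOfPred.1 (h1 (hR l))
  sub := fun s q hq => hq
  diag := by
    intro s hs
    refine ⟨?_, ?_, ?_⟩
    · intro x y hx hy
      rw [hs x hx, hs y hy]
    · intro i x _ hx
      rw [hs x hx]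
    · intro l u hu
      have : (fun a => g (u a).1 p) = fun a => g (u a).2 p := by
        funext a
        rw [hs _ (hu a)]
      rw [this]
  inv := fun q r h s s' hs => at_corr h hs

theorem K_Ga [MeasurableSpace P] {g : ℕ → P → ℂ} {C : Set ℕ}
    {ν : ℕ → ℕ} {R : (j : ℕ) → Set (Fin (ν j) → ℂ)} {p : P} {Φ : List (ℕ × ℕ) → Set P}
    (h : K g C R p Φ) : K g C R p (Ga Φ) where
  meas := by
    intro s
    apply measurableSet_setOfPred.2
    refine Measurable.and (measurableSet_setOfPred.1 (h.meas s)) (Measurable.and ?_ ?_)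
    · exact Measurable.forall fun c => Measurable.exists fun d =>
        measurableSet_setOfPred.1 (h.meas ((c, d) :: s))
    · exact Measurable.forall fun c => Measurable.exists fun d =>
        measurableSet_setOfPred.1 (h.meas ((d, c) :: s))
  sub := fun s q hq => h.sub s q hq.1
  diag := by
    intro s hs
    have h1 : ∀ c : ℕ, p ∈ Φ ((c, c) :: s) := by
      intro c
      apply h.diag
      intro x hx
      rcases List.mem_cons.1 hx with rfl | hx
      · rfl
      · exact hs x hx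
    exact ⟨h.diag s hs, fun c => ⟨c, h1 c⟩, fun c => ⟨c, h1 c⟩⟩
  inv := by
    intro q r hr s s' hs
    constructor
    · rintro ⟨h1, h2, h3⟩
      refine ⟨(h.inv q r hr s s' hs).1 h1, ?_, ?_⟩
      · intro c
        obtain ⟨d, hd⟩ := h2 c
        obtain ⟨d', hd'⟩ := hr.forth d
        exact ⟨d', (h.inv q r hr _ _ (hs.cons c d d' hd')).1 hd⟩
      · intro d'
        obtain ⟨d, hd⟩ := hr.back d'
        obtain ⟨c, hc⟩ := h3 d
        exact ⟨c, (h.inv q r hr _ _ (hs.cons c d d' hd)).1 hc⟩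
    · rintro ⟨h1, h2, h3⟩
      refine ⟨(h.inv q r hr s s' hs).2 h1, ?_, ?_⟩
      · intro c
        obtain ⟨d', hd'⟩ := h2 c
        obtain ⟨d, hd⟩ := hr.back d'
        exact ⟨d, (h.inv q r hr _ _ (hs.cons c d d' hd)).2 hd'⟩
      · intro d
        obtain ⟨d', hd'⟩ := hr.forth d
        obtain ⟨c, hc⟩ := h3 d'
        exact ⟨c, (h.inv q r hr _ _ (hs.cons c d d' hd')).2 hc⟩

theorem K_inter [MeasurableSpace P] {g : ℕ → P → ℂ} {C : Set ℕ}
    {ν : ℕ → ℕ} {R : (j : ℕ) → Set (Fin (ν j) → ℂ)} {p : P} {ι : Type} [Countable ι] [Nonempty ι]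
    {Φ : ι → List (ℕ × ℕ) → Set P} (h : ∀ i, K g C R p (Φ i)) :
    K g C R p (fun s => ⋂ i, Φ i s) where
  meas := fun s => MeasurableSet.iInter fun i => (h i).meas s
  sub := by
    intro s q hq
    exact (h (Classical.arbitrary ι)).sub s q (mem_iInter.1 hq _)
  diag := fun s hs => mem_iInter.2 fun i => (h i).diag s hs
  inv := by
    intro q r hr s s' hs
    rw [mem_iInter, mem_iInter]
    exact forall_congr' fun i => (h i).inv q r hr s s' hs

/-- a member of the class `K` which is stable at `p` -/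
theorem exists_stable [MeasurableSpace P] (g : ℕ → P → ℂ) (hg : ∀ i, Measurable (g i)) (C : Set ℕ)
    {ν : ℕ → ℕ} (R : (j : ℕ) → Set (Fin (ν j) → ℂ)) (hR : ∀ j, MeasurableSet (R j)) (p : P) :
    ∃ Φ : List (ℕ × ℕ) → Set P, K g C R p Φ ∧ ∀ s, p ∈ Φ s → p ∈ Ga Φ s := by
  classical
  have hA := K_At g hg C R hR p
  have hch : ∀ s : List (ℕ × ℕ), ∃ Ψ : List (ℕ × ℕ) → Set P, K g C R p Ψ ∧
      ((∃ Φ : List (ℕ × ℕ) → Set P, K g C R p Φ ∧ p ∉ Φ s) → p ∉ Ψ s) := by
    intro s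
    by_cases h : ∃ Φ : List (ℕ × ℕ) → Set P, K g C R p Φ ∧ p ∉ Φ s
    · obtain ⟨Φ, h1, h2⟩ := h
      exact ⟨Φ, h1, fun _ => h2⟩
    · exact ⟨_, hA, fun h' => absurd h' h⟩
  choose Ψ hΨ hΨ' using hch
  refine ⟨fun t => ⋂ s, Ψ s t, K_inter hΨ, ?_⟩
  intro s hs
  by_contra hn
  exact hΨ' s ⟨_, K_Ga (K_inter hΨ), hn⟩ (mem_iInter.1 hs s)

/-- a back-and-forth system gives an isomorphism -/
theorem exists_BF {g : ℕ → P → ℂ} {C : Set ℕ} {ν : ℕ → ℕ} {R : (j : ℕ) → Set (Fin (ν j) → ℂ)}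
    {p q : P} (F : Set (List (ℕ × ℕ))) (h0 : [] ∈ F) (h1 : ∀ s ∈ F, ∀ c, ∃ d, (c, d) :: s ∈ F)
    (h2 : ∀ s ∈ F, ∀ d, ∃ c, (c, d) :: s ∈ F) (h3 : ∀ s ∈ F, At g C R p q s) :
    ∃ r, BF g C R p q r := by
  -- one round
  have hstep : ∀ (s : F) (n : ℕ), ∃ t : F, (s : List (ℕ × ℕ)) ⊆ (t : List (ℕ × ℕ)) ∧
      (∃ d, (n, d) ∈ (t : List (ℕ × ℕ))) ∧ ∃ c, (c, n) ∈ (t : List (ℕ × ℕ)) := by
    rintro ⟨s, hs⟩ n
    obtain ⟨d, hd⟩ := h1 s hs n
    obtain ⟨c, hc⟩ := h2 _ hd n
    refine ⟨⟨_, hc⟩, ?_, ⟨d, ?_⟩, ⟨c, ?_⟩⟩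
    · intro x hx
      exact List.mem_cons_of_mem _ (List.mem_cons_of_mem _ hx)
    · exact List.mem_cons_of_mem _ List.mem_cons_self
    · exact List.mem_cons_self
  choose nx hn1 hn2 hn3 using hstep
  let S : ℕ → F := fun n => Nat.rec ⟨[], h0⟩ (fun n s => nx s n) n
  have hS : ∀ n, S (n + 1) = nx (S n) n := fun n => rfl
  have hmono : ∀ n m, n ≤ m → ∀ x : ℕ × ℕ, x ∈ (S n).1 → x ∈ (S m).1 := by
    intro n m hnm
    induction m, hnm using Nat.le_induction with
    | base => exact fun x hx => hx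
    | succ m _ ih =>
      rw [hS]
      exact fun x hx => hn1 _ _ (ih x hx)
  refine ⟨fun i j => ∃ n, (i, j) ∈ (S n).1, ?_, ?_, ?_, ?_, ?_⟩
  · intro i
    obtain ⟨d, hd⟩ := hn2 (S i) i
    exact ⟨d, i + 1, by rw [hS]; exact hd⟩
  · intro j
    obtain ⟨c, hc⟩ := hn3 (S j) j
    exact ⟨c, j + 1, by rw [hS]; exact hc⟩
  · rintro i j i' j' ⟨n, hn⟩ ⟨n', hn'⟩
    have e1 := hmono n (max n n') (le_max_left _ _) _ hn
    have e2 := hmono n' (max n n') (le_max_right _ _) _ hn'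
    exact (h3 _ (S (max n n')).2).1 (i, j) (i', j') e1 e2
  · rintro i j hi ⟨n, hn⟩
    exact ((h3 _ (S n).2).2.1 i (i, j) hi hn).1 rfl
  · intro l u w huw
    choose N hN using huw
    obtain ⟨M, hM⟩ : ∃ M, ∀ a, N a ≤ M := by
      refine ⟨Finset.univ.sup N, fun a => Finset.le_sup (f := N) (Finset.mem_univ a)⟩
    exact (h3 _ (S M).2).2.2 l (fun a => (u a, w a)) (fun a => hmono _ _ (hM a) _ (hN a))

theorem t_SC : S_SC := by
  intro P _ g hg C ν R hR p
  obtain ⟨Φ, hK, hst⟩ := exists_stable g hg C R hR p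
  have key : {q : P | ∃ σ : range (fun i => g i p) ≃ range (fun i => g i q), IsoAt g C R p q σ} =
      {q | q ∈ Φ [] ∧ ∀ s, q ∈ Φ s → q ∈ Ga Φ s} := by
    ext q
    rw [mem_ofPred_eq, mem_ofPred_eq, iso_iff]
    constructor
    · rintro ⟨r, hr⟩
      have h0 : Corr r [] [] := ⟨fun x hx => absurd hx (List.not_mem_nil), fun x hx =>
        absurd hx (List.not_mem_nil)⟩
      refine ⟨(hK.inv q r hr [] [] h0).1 (hK.diag [] fun x hx => absurd hx (List.not_mem_nil)), ?_⟩
      intro s' hs'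
      obtain ⟨s, hs⟩ := exists_corr hr.back s'
      exact ((K_Ga hK).inv q r hr s s' hs).1 (hst s ((hK.inv q r hr s s' hs).2 hs'))
    · rintro ⟨h0, h1⟩
      exact exists_BF {s | q ∈ Φ s} h0 (fun s hs => (h1 s hs).2.1) (fun s hs => (h1 s hs).2.2)
        (fun s hs => hK.sub s q hs)
  rw [key]
  apply measurableSet_setOfPred.2
  refine Measurable.and (measurableSet_setOfPred.1 (hK.meas [])) ?_
  exact Measurable.forall fun s => Measurable.imp (measurableSet_setOfPred.1 (hK.meas s))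
    (measurableSet_setOfPred.1 ((K_Ga hK).meas s))

end Pool.Agent.N687.IC
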